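import Mathlib

/-!
Truncated Riesz transforms between two measures.
-/

open MeasureTheory
open scoped NNReal

namespace Pool.Agent.Lib.MP_5e5259_an

variable {d : ℕ}

/-- The truncated `s`-dimensional vector Riesz transform of `f dμ` at `x`. -/
noncomputable def riesz (s : ℝ) (μ : Measure (EuclideanSpace ℝ (Fin d))) (ε : ℝ)
    (f : EuclideanSpace ℝ (Fin d) → ℝ) (x : EuclideanSpace ℝ (Fin d)) :
    EuclideanSpace ℝ (Fin d) :=
  ∫ y in {y | ε < ‖x - y‖}, (f y / ‖x - y‖ ^ (s + 1)) • (x - y) ∂μ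

/-- The truncations are uniformly bounded from `L²(μ)` to `L²(ν)`. -/
def Bdd (s : ℝ) (μ ν : Measure (EuclideanSpace ℝ (Fin d))) : Prop :=
  ∃ C : ℝ≥0, ∀ ε > 0, ∀ f, MemLp f 2 μ →
    ∫⁻ x, ‖riesz s μ ε f x‖ₑ ^ 2 ∂ν ≤ C * ∫⁻ y, ‖f y‖ₑ ^ 2 ∂μ

end Pool.Agent.Lib.MP_5e5259_an
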