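import Pool.Agent.Lib.MP_5e5259_an.Up

/-!
The lower bound for the image measures and the choice of the tree.
-/

open MeasureTheory Set Filter Topology
open scoped ENNReal NNReal RealInnerProductSpace

noncomputable section

namespace Pool.Agent.Lib.MP_5e5259_an

variable {d : ℕ} {s : ℝ} {p : Eu d} {w u : ℕ → Eu d} {l : ℕ → ℝ} {φ : Eu d ≃ₜ Eu d} {a η θ : ℝ}

/-- what is used about the map -/
structure Img (s : ℝ) (p : Eu d) (w u : ℕ → Eu d) (φ : Eu d → Eu d) (a η r : ℝ) : Prop where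
  pos : 0 < a
  low : ∀ x y, ‖x - p‖ ≤ r → ‖y - p‖ ≤ r → a * ‖x - y‖ ≤ ‖φ x - φ y‖
  lin : ∀ x y, ‖x - p‖ ≤ r → ‖y - p‖ ≤ r → ∀ ρ > (0 : ℝ), ∀ i < 3, ∀ z, ‖z‖ ≤ η →
    x - y = -(ρ • (w i + z)) → ∃ q, φ x - φ y = -(ρ • q) ∧ ‖K s q - u i‖ ≤ ‖u 0 + u 1 + u 2‖ / 6

lemma atom_ge (T : Tr w l) (hs : 0 < s) (I : Img s p w u φ a η (2 * l 0))
    (hθ : 12 * θ ≤ ‖u 0 + u 1 + u 2‖) {ε : ℝ} (hε : 0 < ε) {j m : ℕ} (hm : m < 3 ^ (j + 1))
    (h1 : ε < a * (l (j + 1) / 2)) (H3 : 2 * (l (j + 2) / l (j + 1)) ≤ η)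
    (H2 : l (j + 1) ^ s ≤ θ * (4 ^ (j + 1))⁻¹ * (a * (l j / 2)) ^ s) :
    (3 ^ (j + 1))⁻¹ * (‖u 0 + u 1 + u 2‖ / 12) ≤
      l (j + 1) ^ s * ‖∫ t, Kt s ε (φ (c p w l (j + 1) m) - φ (X p w l t)) ∂P‖ := by
  set L := l (j + 1) ^ s with hL
  set V := ‖u 0 + u 1 + u 2‖ with hV
  have l0 := T.pos (j + 1)
  have L0 : 0 < L := Real.rpow_pos_of_pos l0 s
  have b0 : 0 < a * (l j / 2) := mul_pos I.pos (half_pos (T.pos j))
  have b1 := Real.rpow_pos_of_pos b0 s
  have θ0 : 0 < θ * (4 ^ (j + 1))⁻¹ := (pos_iff_pos_of_mul_pos (L0.trans_le H2)).2 b1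
  obtain ⟨i1, i2⟩ := int_split (j + 1) m (fun i _ => u i) fun i => integrable_const _
  have hm3 : 3 * m + 2 < 3 ^ (j + 1 + 1) := by rw [pow_succ 3 (j + 1)]; omega
  rw [setIntegral_const, setIntegral_const, setIntegral_const, P_S hm3, P_S (by omega),
    P_S (by omega), ← smul_add, ← smul_add] at i2
  have i3 : Integrable (fun t => Kt s ε (φ (c p w l (j + 1) m) - φ (X p w l t))) P :=
    Integrable.of_bound ((Kt_meas s ε).comp (measurable_const.sub
      (φ.measurable.comp (T.X_meas p)))).aestronglyMeasurable _ (.of_forall fun t => Kt_bdd hs hε _)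
  have i4 := (integrable_const (μ := P) (V / 6)).indicator (S_meas (j + 1) m)
  have c1 : ‖c p w l (j + 1) m - p‖ ≤ 2 * l 0 := by linarith [T.c_ball p (j + 1) m]
  have c2 : ∀ t, ‖X p w l t - p‖ ≤ 2 * l 0 := fun t => by
    rw [norm_sub_rev]; exact T.tail p 0 t
  have key := norm_integral_le_of_norm_le (μ := P)
    (f := fun t => L • Kt s ε (φ (c p w l (j + 1) m) - φ (X p w l t)) +
      (S (j + 1) m).indicator (fun t => u (N (j + 2) t % 3)) t)
    ((integrable_const (θ * (4 ^ (j + 1))⁻¹)).add i4) (ae_N0.mono fun t ht => by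
      have h2 := I.low _ _ c1 (c2 t)
      by_cases h : t ∈ S (j + 1) m
      · obtain ⟨z, z1, z2⟩ := T.own p h
        obtain ⟨q, q1, q2⟩ := I.lin _ _ c1 (c2 t) _ l0 _ (by omega) z (z1.trans H3) z2
        have n1 := mul_le_mul_of_nonneg_left (T.own_norm p h).1 I.pos.le
        simp only [Pi.add_apply, indicator_of_mem h]
        rw [Kt, if_pos (h1.trans_le (n1.trans h2)), q1, K_scale l0, smul_neg,
          smul_inv_smul₀ L0.ne', neg_add_eq_sub, norm_sub_rev]
        linarith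
      · have := Kt_norm_le hs ε b0
          ((mul_le_mul_of_nonneg_left (T.out p ht j m hm h) I.pos.le).trans h2)
        simp only [Pi.add_apply, indicator_of_notMem h, add_zero]
        rw [norm_smul, Real.norm_eq_abs, abs_of_pos L0]
        exact (mul_le_mul H2 this (norm_nonneg _) (by positivity)).trans
          (mul_inv_cancel_right₀ b1.ne' _).le)
  rw [integral_add (i3.fun_smul L) i1, integral_smul, i2, integral_add' (integrable_const _) i4,
    integral_indicator (S_meas _ _), setIntegral_const, P_S hm, integral_const] at key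
  have h4 := norm_sub_norm_le (((3 : ℝ) ^ (j + 1 + 1))⁻¹ • (u 0 + u 1 + u 2))
    (-(L • ∫ t, Kt s ε (φ (c p w l (j + 1) m) - φ (X p w l t)) ∂P))
  rw [sub_neg_eq_add, add_comm _ (L • _), norm_neg, norm_smul, norm_smul, Real.norm_eq_abs, Real.norm_eq_abs,
    abs_of_pos L0, abs_of_pos (by positivity), pow_succ _ (j + 1), mul_inv] at h4
  have h5 : θ * (4 ^ (j + 1))⁻¹ ≤ V / 12 * (3 ^ (j + 1))⁻¹ :=
    mul_le_mul (by linarith) (by gcongr; norm_num) (by positivity) (by positivity)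
  rw [pow_succ _ (j + 1), mul_inv] at key
  have h6 := h4.trans key
  simp only [probReal_univ, smul_eq_mul] at h6
  linarith

theorem lower (T : Tr w l) (hs : 0 < s) (I : Img s p w u φ a η (2 * l 0))
    (θ0 : 0 < θ) (hθ : 12 * θ ≤ ‖u 0 + u 1 + u 2‖) (H3 : ∀ j, 2 * (l (j + 1) / l j) ≤ η)
    (H2 : ∀ j, l (j + 1) ^ s ≤ θ * (4 ^ (j + 1))⁻¹ * (a * (l j / 2)) ^ s) :
    ¬ Bdd s ((P.map (X p w l)).map φ) ((nu p s w l).map φ) := by
  rintro ⟨C, hC⟩
  have hX := T.X_meas p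
  have anti : Antitone l := antitone_nat_of_succ_le fun j => by
    linarith [T.dec j, T.pos (j + 1)]
  obtain ⟨n, hn⟩ := exists_nat_gt (C / θ ^ 2)
  have hε : 0 < a * (l (n + 1) / 2) := mul_pos I.pos (half_pos (T.pos _))
  rw [Measure.map_map φ.measurable hX] at hC
  have := Measure.isProbabilityMeasure_map (μ := P) (φ.measurable.comp hX).aemeasurable
  have h := hC _ hε (fun _ => 1) (memLp_const 1)
  rw [φ.measurableEmbedding.lintegral_map,
    lint_nu p fun x => riesz s _ _ (fun _ => 1) (φ x)] at h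
  simp only [riesz_map (φ.measurable.comp hX) _ aestronglyMeasurable_const, one_smul, enorm_one,
    one_pow, lintegral_const, measure_univ, mul_one, Function.comp] at h
  have h2 := (ENNReal.sum_le_tsum (Finset.range n)).trans h
  rw [← ENNReal.ofReal_sum_of_nonneg fun _ _ => Finset.sum_nonneg fun _ _ =>
    mul_nonneg (mul_nonneg (pow_nonneg (by norm_num) _) (sq_nonneg _)) (sq_nonneg _),
    ← ENNReal.ofReal_coe_nnreal] at h2
  replace h2 := (ENNReal.ofReal_le_ofReal_iff C.2).1 h2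
  refine absurd (le_trans ?_ h2) (not_le.2 ((div_lt_iff₀ (by positivity)).1 hn))
  rw [← nsmul_eq_mul, ← Finset.card_range n, ← Finset.sum_const, Finset.card_range]
  refine Finset.sum_le_sum fun j hj => ?_
  have e : θ ^ 2 = ∑ _m ∈ Finset.range (3 ^ (j + 1)), 3 ^ (j + 1) * ((3 ^ (j + 1))⁻¹ * θ) ^ 2 := by
    rw [Finset.sum_const, Finset.card_range, nsmul_eq_mul]
    push_cast
    field_simp
  rw [e]
  refine Finset.sum_le_sum fun m hm => ?_
  have h3 : l (n + 1) < l (j + 1) := by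
    have := anti (show j + 1 ≤ n from Finset.mem_range.1 hj)
    linarith [T.dec n, T.pos (n + 1)]
  have h4 := atom_ge T hs I hθ hε (Finset.mem_range.1 hm)
    (mul_lt_mul_of_pos_left (by linarith) I.pos) (H3 (j + 1)) (H2 j)
  rw [mul_assoc, ← mul_pow]
  refine mul_le_mul_of_nonneg_left (pow_le_pow_left₀ (by positivity) (le_trans ?_ h4) 2)
    (by positivity)
  exact mul_le_mul_of_nonneg_left (by linarith) (by positivity)

lemma near {x : ℕ → Eu d} (hx : ∀ i < 3, x i ≠ 0) {τ : ℝ} (hτ : 0 < τ) :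
    ∃ δ > 0, ∀ i < 3, ∀ z, ‖z‖ ≤ δ → ‖K s (x i + z) - K s (x i)‖ ≤ τ := by
  have h : ∀ᶠ z in 𝓝 (0 : Eu d), ∀ i ∈ Finset.range 3, ‖K s (x i + z) - K s (x i)‖ ≤ τ := by
    refine (Finset.range 3).eventually_all.2 fun i hi => ?_
    have h1 : ContinuousAt (fun z => K s (x i + z)) 0 :=
      ContinuousAt.comp_of_eq (g := K s) (f := fun z => x i + z)
        (K_cont (hx i (Finset.mem_range.1 hi))) (by fun_prop) (add_zero _)
    filter_upwards [h1.eventually (Metric.closedBall_mem_nhds _ hτ)] with z hz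
    simpa [dist_eq_norm] using hz
  obtain ⟨δ, h0, h1⟩ := Metric.nhds_basis_closedBall.eventually_iff.1 h
  exact ⟨δ, h0, fun i hi z hz => h1 (by simpa using hz) i (Finset.mem_range.2 hi)⟩

/-- a triple on which the image forces do not cancel -/
lemma triple (hs : 0 < s) (A : Eu d ≃L[ℝ] Eu d) (hA : ¬ ∃ c : ℝ, ∀ x, ‖A x‖ = c * ‖x‖) :
    ∃ w : ℕ → Eu d, (∀ i < 3, ‖w i‖ = 1) ∧ w 0 + w 1 + w 2 = 0 ∧
      (∀ i < 3, ∀ k < 3, i ≠ k → 1 ≤ ‖w i - w k‖) ∧
      K s (A (w 0)) + K s (A (w 1)) + K s (A (w 2)) ≠ 0 := by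
  by_contra! H
  obtain ⟨h, h0, h2⟩ : ∃ h : ℝ, 0 < h ∧ h * h = 3 / 4 :=
    ⟨√(3 / 4), by positivity, Real.mul_self_sqrt (by norm_num)⟩
  have orth : ∀ e e' : Eu d, ‖e‖ = 1 → ‖e'‖ = 1 → ⟪e, e'⟫ = 0 → ⟪A e, A e'⟫ = 0 := by
    intro e e' n1 n2 o
    have sq : ∀ a b : ℝ, ‖a • e + b • e'‖ ^ 2 = a ^ 2 + b ^ 2 := fun a b => by
      simp [norm_add_sq_real, norm_smul, inner_smul_left, inner_smul_right, n1, n2, o]
    let α : ℕ → ℝ := fun i => if i = 0 then 1 else -1 / 2
    let β : ℕ → ℝ := fun i => if i = 0 then 0 else if i = 1 then h else -h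
    have un : ∀ i < 3, ‖α i • e + β i • e'‖ = 1 := fun i hi => by
      rw [← sq_eq_sq₀ (norm_nonneg _) zero_le_one, sq]
      interval_cases i <;> simp [α, β] <;> linarith
    have h3 := H (fun i => α i • e + β i • e') un (by simp only [α, β]; simp; module)
      fun i hi k hk hik => by
        rw [show α i • e + β i • e' - (α k • e + β k • e') = (α i - α k) • e + (β i - β k) • e' by
          module, ← sq_le_sq₀ zero_le_one (norm_nonneg _), sq]
        interval_cases i <;> interval_cases k <;>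
          simp [α, β, -one_le_sq_iff_one_le_abs] at hik ⊢ <;> nlinarith
    simp only [K, ← map_smul, ← map_add, map_eq_zero_iff _ A.injective] at h3
    have h4 := congrArg (fun x => ⟪x, e'⟫) h3
    simp only [inner_add_left, inner_smul_left, o, real_inner_self_eq_norm_sq, n2, α, β] at h4
    simp at h4
    have h5 : ‖A (α 1 • e + β 1 • e')‖ = ‖A (α 2 • e + β 2 • e')‖ := by
      have := mul_right_cancel₀ h0.ne' (add_neg_eq_zero.1 h4)
      rw [inv_inj, Real.rpow_left_inj (norm_nonneg _) (norm_nonneg _) (by linarith)] at this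
      simpa [α, β] using this
    have h6 := congrArg (· ^ 2) h5
    simp [norm_add_sq_real, norm_smul, inner_smul_left, inner_smul_right, α, β] at h6
    have : h * ⟪A e, A e'⟫ = 0 := by linarith
    exact (mul_eq_zero.1 this).resolve_left h0.ne'
  have orth' : ∀ x y : Eu d, ⟪x, y⟫ = 0 → ⟪A x, A y⟫ = 0 := fun x y o => by
    rcases eq_or_ne x 0 with rfl | hx
    · simp
    rcases eq_or_ne y 0 with rfl | hy
    · simp
    have := orth (‖x‖⁻¹ • x) (‖y‖⁻¹ • y) (norm_smul_inv_norm hx) (norm_smul_inv_norm hy)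
      (by simp [inner_smul_left, inner_smul_right, o])
    simpa [inner_smul_left, inner_smul_right, hx, hy] using this
  have eqn : ∀ x y : Eu d, ‖x‖ = ‖y‖ → ‖A x‖ = ‖A y‖ := fun x y e => by
    have := orth' (x + y) (x - y) ((real_inner_add_sub_eq_zero_iff x y).2 e)
    rwa [map_add, map_sub, real_inner_add_sub_eq_zero_iff] at this
  refine hA ?_
  by_cases h7 : ∃ y : Eu d, y ≠ 0
  · obtain ⟨y, hy⟩ := h7
    refine ⟨‖A y‖ / ‖y‖, fun x => ?_⟩
    have := eqn (‖y‖ • x) (‖x‖ • y) (by simp [norm_smul, mul_comm])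
    simp only [map_smul, norm_smul, norm_norm] at this
    have := norm_pos_iff.2 hy
    field_simp
    linarith
  · push Not at h7
    exact ⟨0, fun x => by simp [h7 (A x)]⟩

end Pool.Agent.Lib.MP_5e5259_an
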