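import Pool.Agent.Lib.MP_5e5259_an.Low

/-!
The choice of the parameters.
-/

open MeasureTheory Set Filter Topology

noncomputable section

namespace Pool.Agent.Lib.MP_5e5259_an

variable {d : ℕ} {s : ℝ}

/-- the map near `p` -/
lemma img (φ : Eu d → Eu d) (A : Eu d ≃L[ℝ] Eu d) (p : Eu d)
    (h : HasStrictFDerivAt φ (A : Eu d →L[ℝ] Eu d) p) {w : ℕ → Eu d} (hw : ∀ i < 3, ‖w i‖ = 1)
    (hV : 0 < ‖K s (A (w 0)) + K s (A (w 1)) + K s (A (w 2))‖) :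
    ∃ a η r, a ≤ 1 ∧ 0 < η ∧ 0 < r ∧ r ≤ 1 ∧
      Img s p w (fun i => K s (A (w i))) φ a η (2 * r) := by
  obtain ⟨δ, δ0, hδ⟩ := near (s := s) (x := fun i => A (w i)) (fun i hi => by
    rw [Ne, map_eq_zero_iff _ A.injective, ← norm_eq_zero, hw i hi]
    exact one_ne_zero) (div_pos hV (show (0 : ℝ) < 6 by norm_num))
  obtain ⟨M, M0, hM⟩ := (A : Eu d →L[ℝ] Eu d).bound
  obtain ⟨M', M1, hM'⟩ : ∃ M' : ℝ, 1 ≤ M' ∧ ∀ x, ‖x‖ ≤ M' * ‖A x‖ :=
    ⟨‖(A.symm : Eu d →L[ℝ] Eu d)‖ + 1, by simp, fun x => by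
      have := (A.symm : Eu d →L[ℝ] Eu d).le_opNorm (A x)
      simp only [ContinuousLinearEquiv.coe_coe, ContinuousLinearEquiv.symm_apply_apply] at this
      linarith [norm_nonneg (A x)]⟩
  have a0 : 0 < (2 * M')⁻¹ := by positivity
  obtain ⟨r, r0, hr⟩ := Metric.nhds_basis_closedBall.eventually_iff.1
    (h.isLittleO.def (lt_min a0 (div_pos δ0 (show (0 : ℝ) < 4 by norm_num))))
  have key : ∀ x y, ‖x - p‖ ≤ 2 * min (r / 2) 1 → ‖y - p‖ ≤ 2 * min (r / 2) 1 →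
      ‖φ x - φ y - A (x - y)‖ ≤ min (2 * M')⁻¹ (δ / 4) * ‖x - y‖ := fun x y hx hy => by
    have := min_le_left (r / 2) 1
    exact @hr (x, y) (by
      rw [Metric.mem_closedBall, Prod.dist_eq, dist_eq_norm, dist_eq_norm]
      exact max_le (by linarith) (by linarith))
  refine ⟨(2 * M')⁻¹, min 1 (δ / 2 / M), min (r / 2) 1, inv_le_one_of_one_le₀ (by linarith),
    by positivity, by positivity, min_le_right _ _, a0, fun x y hx hy => ?_,
    fun x y hx hy ρ ρ0 i hi z hz e => ⟨-(ρ⁻¹ • (φ x - φ y)), ?_, ?_⟩⟩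
  · have h1 := (key x y hx hy).trans (mul_le_mul_of_nonneg_right (min_le_left _ _) (norm_nonneg _))
    have h2 := norm_sub_norm_le (A (x - y)) (φ x - φ y)
    have h3 : 2 * ((2 * M')⁻¹ * ‖x - y‖) ≤ ‖A (x - y)‖ := by
      rw [← mul_assoc, mul_inv, mul_inv_cancel_left₀ two_ne_zero, inv_mul_le_iff₀ (by linarith)]
      exact hM' _
    rw [norm_sub_rev (A _)] at h2
    linarith
  · rw [smul_neg, neg_neg, smul_inv_smul₀ ρ0.ne']
  · have h1 := (key x y hx hy).trans (mul_le_mul_of_nonneg_right (min_le_right _ _) (norm_nonneg _))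
    have h2 : -(ρ⁻¹ • (φ x - φ y)) = A (w i) + (A z - ρ⁻¹ • (φ x - φ y - A (x - y))) := by
      rw [smul_sub _ (φ x - φ y), e, map_neg, map_smul, smul_neg, inv_smul_smul₀ ρ0.ne', map_add]
      abel
    have h3 : ‖x - y‖ ≤ ρ * 2 := by
      rw [e, norm_neg, norm_smul, Real.norm_eq_abs, abs_of_pos ρ0]
      have := norm_add_le (w i) z
      rw [hw i hi] at this
      exact mul_le_mul_of_nonneg_left (by linarith [hz.trans (min_le_left _ _)]) ρ0.le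
    have h4 : ‖A z‖ ≤ δ / 2 := (hM z).trans
      ((le_div_iff₀' M0).1 (hz.trans (min_le_right _ _)))
    have h5 : ‖ρ⁻¹ • (φ x - φ y - A (x - y))‖ ≤ δ / 2 := by
      rw [norm_smul, Real.norm_eq_abs, abs_of_pos (inv_pos.2 ρ0), inv_mul_le_iff₀ ρ0]
      nlinarith
    rw [h2]
    exact hδ i hi _ ((norm_sub_le _ _).trans (by linarith))

theorem main (hs : 0 < s) (φ : Eu d ≃ₜ Eu d) (A : Eu d ≃L[ℝ] Eu d) (p : Eu d)
    (h : HasStrictFDerivAt φ (A : Eu d →L[ℝ] Eu d) p) (hA : ¬ ∃ c : ℝ, ∀ x, ‖A x‖ = c * ‖x‖) :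
    ∃ μ ν : Measure (Eu d), IsFiniteMeasure μ ∧ IsFiniteMeasure ν ∧ Bdd s μ ν ∧
      ¬ Bdd s (μ.map φ) (ν.map φ) := by
  obtain ⟨w, w1, w2, w3, w4⟩ := triple hs A hA
  have hV := norm_pos_iff.2 w4
  obtain ⟨a, η, r, a1, η0, r0, r1, I⟩ := img φ A p h w1 hV
  obtain ⟨θ, θ0, θ1, hθ⟩ : ∃ θ : ℝ, 0 < θ ∧ θ ≤ 1 ∧
      12 * θ ≤ ‖K s (A (w 0)) + K s (A (w 1)) + K s (A (w 2))‖ :=
    ⟨min 1 (_ / 12), lt_min one_pos (div_pos hV (by norm_num)), min_le_left _ _,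
      (le_div_iff₀' (by norm_num)).1 (min_le_right _ _)⟩
  have a0 := I.pos
  have : ∀ j : ℕ, ∃ ρ : ℝ, 0 < ρ ∧ ρ ≤ 1 / 4 ∧ 2 * ρ ≤ η ∧
      (∀ i < 3, ∀ z, ‖z‖ ≤ 2 * ρ → ‖K s (w i + z) - w i‖ ≤ (4 ^ j)⁻¹) ∧
      ρ ^ s ≤ θ * (4 ^ (j + 1))⁻¹ * (a / 2) ^ s := fun j => by
    obtain ⟨δ, δ0, hδ⟩ := near (s := s) (x := w) (fun i hi => by
      rw [← norm_ne_zero_iff, w1 i hi]
      exact one_ne_zero) (show (0 : ℝ) < (4 ^ j)⁻¹ by positivity)
    have b0 : 0 < θ * (4 ^ (j + 1))⁻¹ * (a / 2) ^ s := by positivity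
    obtain ⟨ρ, ρ0, hρ⟩ := exists_between (lt_min (lt_min (show (0 : ℝ) < 1 / 4 by norm_num)
      (half_pos η0)) (lt_min (half_pos δ0) (Real.rpow_pos_of_pos b0 s⁻¹)))
    simp only [lt_min_iff] at hρ
    refine ⟨ρ, ρ0, hρ.1.1.le, by linarith [hρ.1.2], fun i hi z hz => ?_, ?_⟩
    · have := hδ i hi z (by linarith [hρ.2.1])
      rwa [K_unit (w1 i hi)] at this
    · exact (Real.rpow_le_rpow ρ0.le hρ.2.2.le hs.le).trans (Real.rpow_inv_rpow b0.le hs.ne').le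
  choose ρ ρ0 ρ1 ρ2 ρ3 ρ4 using this
  obtain ⟨l, l0, hl⟩ : ∃ l : ℕ → ℝ, l 0 = r ∧ ∀ j, l (j + 1) = l j * ρ j :=
    ⟨fun j => r * ∏ i ∈ Finset.range j, ρ i, by simp, fun j => by
      simp only [Finset.prod_range_succ, mul_assoc]⟩
  have lp : ∀ j, 0 < l j ∧ l j ≤ 1 := fun j => by
    induction j with
    | zero => rw [l0]; exact ⟨r0, r1⟩
    | succ j ih =>
      rw [hl]
      exact ⟨mul_pos ih.1 (ρ0 j), by nlinarith [ρ0 j, ρ1 j]⟩
  have T : Tr w l := ⟨w1, w2, w3, fun j => (lp j).1, fun j => by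
    rw [hl]; nlinarith [ρ1 j, (lp j).1]⟩
  have q : ∀ j, l (j + 1) / l j = ρ j := fun j => by
    rw [hl, mul_div_cancel_left₀ _ (lp j).1.ne']
  have H2 : ∀ j, l (j + 1) ^ s ≤ θ * (4 ^ (j + 1))⁻¹ * (a * (l j / 2)) ^ s := fun j => by
    rw [hl, Real.mul_rpow (lp j).1.le (ρ0 j).le, show a * (l j / 2) = a / 2 * l j by ring,
      Real.mul_rpow (half_pos a0).le (lp j).1.le, ← mul_assoc, mul_comm]
    exact mul_le_mul_of_nonneg_right (ρ4 j) (Real.rpow_nonneg (lp j).1.le s)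
  have H2' : ∀ j, l (j + 1) ^ s ≤ (4 ^ (j + 1))⁻¹ * (l j / 2) ^ s := fun j => by
    have h0 := half_pos (lp j).1
    exact (H2 j).trans (mul_le_mul (mul_le_of_le_one_left (by positivity) θ1)
      (Real.rpow_le_rpow (by positivity) (mul_le_of_le_one_left h0.le a1) hs.le)
      (by positivity) (by positivity))
  have := Measure.isProbabilityMeasure_map (μ := P) (T.X_meas p).aemeasurable
  rw [← l0] at I
  refine ⟨P.map (X p w l), nu p s w l, inferInstance, nu_finite p (fun j => ?_) T.pos,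
    upper p T hs (fun j => ?_) H2', lower T hs I θ0 hθ (fun j => ?_) H2⟩
  · exact (H2' j).trans (mul_le_of_le_one_right (by positivity)
      (Real.rpow_le_one (half_pos (lp j).1).le (by linarith [(lp j).2]) hs.le))
  · rw [q]; exact ρ3 j
  · rw [q]; exact ρ2 j

end Pool.Agent.Lib.MP_5e5259_an
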