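import Pool.Agent.Lib.MP_5e5259_an.Defs

/-!
The kernel, ternary intervals and the tree of centres.
-/

open MeasureTheory Set Filter Topology

noncomputable section

namespace Pool.Agent.Lib.MP_5e5259_an

variable {d : ℕ}

abbrev Eu (d : ℕ) := EuclideanSpace ℝ (Fin d)

/-- the kernel -/
def K (s : ℝ) (x : Eu d) : Eu d := (‖x‖ ^ (s + 1))⁻¹ • x

/-- the truncated kernel -/
def Kt (s ε : ℝ) (x : Eu d) : Eu d := if ε < ‖x‖ then K s x else 0

variable {s : ℝ}

lemma K_norm_le (hs : 0 < s) {a : ℝ} (ha : 0 < a) {x : Eu d} (h : a ≤ ‖x‖) :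
    ‖K s x‖ ≤ (a ^ s)⁻¹ := by
  have h0 : 0 < ‖x‖ := ha.trans_le h
  rw [K, norm_smul, Real.norm_eq_abs, abs_of_pos (by positivity), Real.rpow_add_one h0.ne',
    mul_inv, mul_assoc, inv_mul_cancel₀ h0.ne', mul_one]
  gcongr

lemma Kt_norm_le (hs : 0 < s) (ε : ℝ) {a : ℝ} (ha : 0 < a) {x : Eu d} (h : a ≤ ‖x‖) :
    ‖Kt s ε x‖ ≤ (a ^ s)⁻¹ := by
  unfold Kt
  split_ifs
  · exact K_norm_le hs ha h
  · rw [norm_zero]; positivity

lemma Kt_bdd (hs : 0 < s) {ε : ℝ} (hε : 0 < ε) (x : Eu d) : ‖Kt s ε x‖ ≤ (ε ^ s)⁻¹ := by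
  unfold Kt
  split_ifs with h
  · exact K_norm_le hs hε h.le
  · rw [norm_zero]; positivity

lemma K_scale {l : ℝ} (hl : 0 < l) (x : Eu d) : K s (-(l • x)) = -((l ^ s)⁻¹ • K s x) := by
  rw [K, K, norm_neg, norm_smul, Real.norm_eq_abs, abs_of_pos hl,
    Real.mul_rpow hl.le (norm_nonneg _), Real.rpow_add_one hl.ne', smul_neg, smul_smul, smul_smul]
  congr 2
  field_simp

lemma K_unit {x : Eu d} (h : ‖x‖ = 1) : K s x = x := by simp [K, h]

lemma K_cont {x : Eu d} (h : x ≠ 0) : ContinuousAt (K s) x :=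
  ((continuous_norm.continuousAt.rpow_const (Or.inl (norm_ne_zero_iff.2 h))).inv₀
    (Real.rpow_pos_of_pos (norm_pos_iff.2 h) _).ne').smul continuousAt_id

lemma Kt_meas (s ε : ℝ) : Measurable (Kt s ε : Eu d → Eu d) :=
  Measurable.ite (measurableSet_lt measurable_const measurable_norm)
    ((measurable_norm.pow_const _).inv.smul measurable_id) measurable_const

/-- Lebesgue measure on the unit interval -/
def P : Measure ℝ := volume.restrict (Ico 0 1)

instance : IsProbabilityMeasure P := ⟨by simp [P]⟩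

lemma riesz_map {Y : ℝ → Eu d} (hY : Measurable Y) (ε : ℝ) {f : Eu d → ℝ}
    (hf : AEStronglyMeasurable f (P.map Y)) (x : Eu d) :
    riesz s (P.map Y) ε f x = ∫ t, f (Y t) • Kt s ε (x - Y t) ∂P := by
  have hm : MeasurableSet {y : Eu d | ε < ‖x - y‖} :=
    measurableSet_lt measurable_const (by fun_prop)
  rw [riesz, ← integral_indicator hm, ← integral_map (f := fun y => f y • Kt s ε (x - y))
    hY.aemeasurable (hf.smul ((Kt_meas s ε).comp
      (measurable_const.sub measurable_id)).aestronglyMeasurable)]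
  congr 1
  funext y
  by_cases h : ε < ‖x - y‖ <;> simp [h, Kt, K, smul_smul, div_eq_mul_inv]

/-- the number of the ternary interval of level `j` -/
def N (j : ℕ) (t : ℝ) : ℕ := ⌊3 ^ j * t⌋₊

lemma N_succ (j : ℕ) (t : ℝ) : N (j + 1) t / 3 = N j t := by
  rw [N, N, ← Nat.floor_div_natCast]
  congr 1
  push_cast
  ring

lemma N_meas (j : ℕ) : Measurable (N j) := Nat.measurable_floor.comp (by fun_prop)

/-- a ternary interval -/
def S (j m : ℕ) : Set ℝ := {t | N j t = m}

lemma S_meas (j m : ℕ) : MeasurableSet (S j m) := N_meas j (measurableSet_singleton m)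

lemma P_S {j m : ℕ} (h : m < 3 ^ j) : P.real (S j m) = (3 ^ j)⁻¹ := by
  have h3 : (0 : ℝ) < 3 ^ j := by positivity
  have hm : (m : ℝ) + 1 ≤ 3 ^ j := by exact_mod_cast h
  have e : S j m ∩ Ico 0 1 = Ico ((m : ℝ) / 3 ^ j) ((m + 1) / 3 ^ j) := by
    ext t
    simp only [S, N, mem_inter_iff, mem_ofPred_eq, mem_Ico, div_le_iff₀' h3, lt_div_iff₀' h3]
    constructor
    · rintro ⟨h1, h2, -⟩
      exact (Nat.floor_eq_iff (by positivity)).1 h1
    · rintro ⟨h1, h2⟩
      have h0 : 0 ≤ 3 ^ j * t := le_trans (by positivity) h1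
      exact ⟨(Nat.floor_eq_iff h0).2 ⟨h1, h2⟩, nonneg_of_mul_nonneg_right h0 h3,
        by nlinarith⟩
  rw [Measure.real, P, Measure.restrict_apply (S_meas j m), e, Real.volume_Ico,
    ENNReal.toReal_ofReal (sub_nonneg.2 (by gcongr; linarith))]
  field_simp
  ring

lemma ae_N0 : ∀ᵐ t ∂P, N 0 t = 0 :=
  (ae_restrict_mem measurableSet_Ico).mono fun t ht => by simpa [N] using ht.2

lemma ind_split {V : Type} [AddCommMonoid V] (j m : ℕ) (G : ℕ → ℝ → V) (t : ℝ) :
    (S j m).indicator (fun t => G (N (j + 1) t % 3) t) t = (S (j + 1) (3 * m)).indicator (G 0) t +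
      (S (j + 1) (3 * m + 1)).indicator (G 1) t + (S (j + 1) (3 * m + 2)).indicator (G 2) t := by
  have h := N_succ j t
  simp only [indicator, S, mem_ofPred_eq]
  by_cases h0 : N j t = m
  · have : N (j + 1) t = 3 * m ∨ N (j + 1) t = 3 * m + 1 ∨ N (j + 1) t = 3 * m + 2 := by omega
    rcases this with e | e | e <;> simp [h0, e, Nat.add_mod]
  · rw [if_neg h0, if_neg (by omega), if_neg (by omega), if_neg (by omega)]
    simp

lemma int_split {V : Type} [NormedAddCommGroup V] [NormedSpace ℝ V] (j m : ℕ) (G : ℕ → ℝ → V)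
    (hG : ∀ i, Integrable (G i) P) :
    Integrable ((S j m).indicator fun t => G (N (j + 1) t % 3) t) P ∧
    ∫ t, (S j m).indicator (fun t => G (N (j + 1) t % 3) t) t ∂P = ∫ t in S (j + 1) (3 * m), G 0 t ∂P
      + ∫ t in S (j + 1) (3 * m + 1), G 1 t ∂P + ∫ t in S (j + 1) (3 * m + 2), G 2 t ∂P := by
  have i : ∀ i k, Integrable ((S (j + 1) k).indicator (G i)) P := fun i k =>
    (hG i).indicator (S_meas _ _)
  rw [funext (ind_split j m G)]
  refine ⟨((i _ _).add (i _ _)).add (i _ _), ?_⟩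
  rw [integral_add ((i _ _).fun_add (i _ _)) (i _ _), integral_add (i _ _) (i _ _),
    integral_indicator (S_meas _ _), integral_indicator (S_meas _ _),
    integral_indicator (S_meas _ _)]

lemma sum_S_le {h : ℝ → ℝ} (hi : Integrable h P) (h0 : ∀ t, 0 ≤ h t) (j n : ℕ) :
    ∑ m ∈ Finset.range n, ∫ t in S j m, h t ∂P ≤ ∫ t, h t ∂P := by
  rw [← integral_biUnion_finset _ (fun m _ => S_meas j m)
    (fun a _ b _ hab => disjoint_left.2 fun t h1 h2 => hab (h1.symm.trans h2))
    (fun m _ => hi.integrableOn)]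
  exact setIntegral_le_integral hi (.of_forall h0)

lemma cs {μ : Measure ℝ} [IsFiniteMeasure μ] {g : ℝ → ℝ} (h1 : Integrable g μ)
    (h2 : Integrable (fun t => g t ^ 2) μ) {c : ℝ} (hc : μ.real univ = c) (c0 : 0 < c) :
    (∫ t, |g t| ∂μ) ^ 2 ≤ c * ∫ t, g t ^ 2 ∂μ := by
  set a := ∫ t, |g t| ∂μ with ha
  have h : ∫ t, 2 * (a * c) * |g t| ∂μ ≤ ∫ t, (c ^ 2 * g t ^ 2 + a ^ 2) ∂μ :=
    integral_mono (h1.abs.const_mul _) ((h2.const_mul _).add (integrable_const _)) fun t => by
      simp only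
      nlinarith [sq_nonneg (c * |g t| - a), sq_abs (g t)]
  rw [integral_add (h2.const_mul _) (integrable_const _), integral_const_mul, integral_const_mul,
    integral_const, ← ha, hc, smul_eq_mul] at h
  refine le_of_mul_le_mul_left ?_ c0
  nlinarith

lemma cs_S {g : ℝ → ℝ} (h1 : Integrable g P) (h2 : Integrable (fun t => g t ^ 2) P) {j m : ℕ}
    (h : m < 3 ^ j) : 3 ^ j * (∫ t in S j m, |g t| ∂P) ^ 2 ≤ ∫ t in S j m, g t ^ 2 ∂P := by
  have := cs (μ := P.restrict (S j m)) h1.integrableOn h2.integrableOn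
    (c := (3 ^ j)⁻¹) (by rw [← P_S h]; simp [Measure.real]) (by positivity)
  rwa [le_inv_mul_iff₀ (by positivity)] at this

lemma sum_three (a : ℕ → ℝ) (n : ℕ) : ∑ m ∈ Finset.range (3 * n), a m =
    ∑ m ∈ Finset.range n, (a (3 * m) + a (3 * m + 1) + a (3 * m + 2)) := by
  induction n with
  | zero => simp
  | succ n ih =>
    rw [Finset.sum_range_succ, ← ih, show 3 * (n + 1) = 3 * n + 1 + 1 + 1 by ring]
    simp only [Finset.sum_range_succ]
    ring

/-- three unit vectors with sum zero and quickly decreasing scales -/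
structure Tr (w : ℕ → Eu d) (l : ℕ → ℝ) : Prop where
  unit : ∀ i < 3, ‖w i‖ = 1
  sum : w 0 + w 1 + w 2 = 0
  sep : ∀ i < 3, ∀ k < 3, i ≠ k → 1 ≤ ‖w i - w k‖
  pos : ∀ j, 0 < l j
  dec : ∀ j, 4 * l (j + 1) ≤ l j

variable (p : Eu d) (w : ℕ → Eu d) (l : ℕ → ℝ)

/-- the centres -/
def c : ℕ → ℕ → Eu d
  | 0, _ => p
  | j + 1, m => c j (m / 3) + l j • w (m % 3)

/-- the points of the Cantor set -/
def X (t : ℝ) : Eu d := limUnder atTop fun j => c p w l j (N j t)

variable {w l}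

namespace Tr
variable (T : Tr w l)
include T

lemma step (m j : ℕ) : ‖l j • w (m % 3)‖ = l j := by
  rw [norm_smul, T.unit _ (Nat.mod_lt _ (by norm_num)), mul_one, Real.norm_eq_abs,
    abs_of_pos (T.pos j)]

lemma geo (j n : ℕ) (t : ℝ) :
    dist (c p w l (n + j) (N (n + j) t)) (c p w l (n + 1 + j) (N (n + 1 + j) t)) ≤
      2 * l j / 2 / 2 ^ n := by
  have h : ∀ n, l (n + j) ≤ 2 * l j / 2 / 2 ^ n := fun n => by
    induction n with
    | zero => simp
    | succ n ih =>
      have h1 := T.dec (n + j)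
      have h2 := T.pos (n + j + 1)
      rw [show n + 1 + j = n + j + 1 by ring, pow_succ, ← div_div]
      linarith
  rw [show n + 1 + j = n + j + 1 by ring, c, N_succ, dist_self_add_right, T.step]
  exact h n

lemma tends (t : ℝ) : Tendsto (fun j => c p w l j (N j t)) atTop (𝓝 (X p w l t)) :=
  (cauchySeq_of_le_geometric_two (T.geo p 0 · t)).tendsto_limUnder

lemma tail (j : ℕ) (t : ℝ) : ‖c p w l j (N j t) - X p w l t‖ ≤ 2 * l j := by
  have := dist_le_of_le_geometric_two_of_tendsto₀ (T.geo p j · t)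
    ((tendsto_add_atTop_iff_nat j).2 (T.tends p t))
  rwa [zero_add, dist_eq_norm] at this

lemma X_meas : Measurable (X p w l) :=
  measurable_of_tendsto_metrizable (fun j => measurable_from_nat.comp (N_meas j))
    (tendsto_pi_nhds.2 (T.tends p))

lemma c_ball (j m : ℕ) : ‖c p w l j m - p‖ ≤ 2 * l 0 - 2 * l j := by
  induction j generalizing m with
  | zero => simp [c]
  | succ j ih =>
    have h1 := norm_add_le (c p w l j (m / 3) - p) (l j • w (m % 3))
    rw [T.step, sub_add_eq_add_sub] at h1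
    have := ih (m / 3)
    have := T.dec j
    have := T.pos (j + 1)
    rw [c]
    linarith

/-- inside a block -/
lemma own {j m : ℕ} {t : ℝ} (h : N j t = m) : ∃ z, ‖z‖ ≤ 2 * (l (j + 1) / l j) ∧
    c p w l j m - X p w l t = -(l j • (w (N (j + 1) t % 3) + z)) := by
  have h1 := T.tail p (j + 1) t
  have h0 := T.pos j
  rw [c, N_succ, h] at h1
  refine ⟨-((l j)⁻¹ • (c p w l j m + l j • w (N (j + 1) t % 3) - X p w l t)), ?_, ?_⟩
  · rw [norm_neg, norm_smul, Real.norm_eq_abs, abs_of_pos (by positivity), inv_mul_le_iff₀ h0]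
    refine h1.trans (le_of_eq ?_)
    field_simp
  · rw [smul_add, smul_neg, smul_inv_smul₀ h0.ne']
    abel

lemma own_norm {j m : ℕ} {t : ℝ} (h : N j t = m) :
    l j / 2 ≤ ‖c p w l j m - X p w l t‖ ∧ ‖c p w l j m - X p w l t‖ ≤ 2 * l j := by
  refine ⟨?_, h ▸ T.tail p j t⟩
  have h1 := T.tail p (j + 1) t
  rw [c, N_succ, h, add_sub_right_comm] at h1
  have h2 := norm_sub_norm_le (l j • w (N (j + 1) t % 3)) (-(c p w l j m - X p w l t))
  rw [T.step, norm_neg, sub_neg_eq_add, add_comm] at h2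
  linarith [T.dec j]

/-- outside a block -/
lemma out {t : ℝ} (h0 : N 0 t = 0) (j m : ℕ) (hm : m < 3 ^ (j + 1)) (h : N (j + 1) t ≠ m) :
    l j / 2 ≤ ‖c p w l (j + 1) m - X p w l t‖ := by
  have same : ∀ j m, N j t = m / 3 → N (j + 1) t ≠ m →
      l j / 2 ≤ ‖c p w l (j + 1) m - X p w l t‖ := fun j m e h => by
    have h1 := T.tail p (j + 1) t
    have h2 := N_succ j t
    have h3 := T.sep (m % 3) (by omega) (N (j + 1) t % 3) (by omega) (by omega)
    have h4 := norm_sub_norm_le (l j • (w (m % 3) - w (N (j + 1) t % 3)))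
      (-(c p w l (j + 1) (N (j + 1) t) - X p w l t))
    have e1 : l j • (w (m % 3) - w (N (j + 1) t % 3)) -
        -(c p w l (j + 1) (N (j + 1) t) - X p w l t) = c p w l (j + 1) m - X p w l t := by
      rw [c, c, h2, e, smul_sub]; abel
    rw [e1, norm_neg, norm_smul, Real.norm_eq_abs, abs_of_pos (T.pos j)] at h4
    nlinarith [T.dec j, T.pos j]
  induction j generalizing m with
  | zero => exact same 0 m (by omega) h
  | succ j ih =>
    by_cases e : N (j + 1) t = m / 3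
    · exact same _ m e h
    · have h1 := ih (m / 3) (by rw [pow_succ] at hm; omega) e
      have h2 := norm_sub_norm_le (c p w l (j + 1) (m / 3) - X p w l t) (-(l (j + 1) • w (m % 3)))
      rw [norm_neg, T.step, sub_neg_eq_add, ← add_sub_right_comm] at h2
      rw [c]
      linarith [T.dec j, T.pos (j + 1)]

lemma quad (a b e : ℝ) : ‖a • w 0 + b • w 1 + e • w 2‖ ^ 2 ≤
    3 * (a ^ 2 + b ^ 2 + e ^ 2) - (a + b + e) ^ 2 := by
  set m := (a + b + e) / 3 with hm
  have e1 : a • w 0 + b • w 1 + e • w 2 = (a - m) • w 0 + (b - m) • w 1 + (e - m) • w 2 := by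
    have := congrArg (m • ·) T.sum
    simp only [smul_add, smul_zero] at this
    linear_combination (norm := module) this
  have h := norm_add₃_le (a := (a - m) • w 0) (b := (b - m) • w 1) (c := (e - m) • w 2)
  simp only [norm_smul, T.unit 0 (by norm_num), T.unit 1 (by norm_num), T.unit 2 (by norm_num),
    mul_one, Real.norm_eq_abs] at h
  rw [e1]
  refine (pow_le_pow_left₀ (norm_nonneg _) h 2).trans ?_
  have e2 : 3 * (a ^ 2 + b ^ 2 + e ^ 2) - (a + b + e) ^ 2 =
      3 * (|a - m| ^ 2 + |b - m| ^ 2 + |e - m| ^ 2) := by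
    simp only [sq_abs, hm]; ring
  rw [e2]
  nlinarith [sq_nonneg (|a - m| - |b - m|), sq_nonneg (|a - m| - |e - m|),
    sq_nonneg (|b - m| - |e - m|)]

end Tr

end Pool.Agent.Lib.MP_5e5259_an
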