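import Pool.Agent.Lib.MP_5e5259_an.Tree

/-!
The atoms at the centres and the upper bound.
-/

open MeasureTheory Set Filter Topology
open scoped ENNReal NNReal

noncomputable section

namespace Pool.Agent.Lib.MP_5e5259_an

variable {d : ℕ} {s : ℝ} (p : Eu d) {w : ℕ → Eu d} {l : ℕ → ℝ}

/-- the atoms at the centres of the blocks -/
def nu (s : ℝ) (w : ℕ → Eu d) (l : ℕ → ℝ) : Measure (Eu d) :=
  Measure.sum fun j => ∑ m ∈ Finset.range (3 ^ (j + 1)),
    ENNReal.ofReal (3 ^ (j + 1) * (l (j + 1) ^ s) ^ 2) • Measure.dirac (c p w l (j + 1) m)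

lemma lint_nu (h : Eu d → Eu d) : ∫⁻ x, ‖h x‖ₑ ^ 2 ∂nu p s w l = ∑' j, ENNReal.ofReal
    (∑ m ∈ Finset.range (3 ^ (j + 1)),
      3 ^ (j + 1) * (l (j + 1) ^ s) ^ 2 * ‖h (c p w l (j + 1) m)‖ ^ 2) := by
  rw [nu, lintegral_sum_measure]
  refine tsum_congr fun j => ?_
  rw [lintegral_finsetSum_measure, ENNReal.ofReal_sum_of_nonneg fun _ _ => by positivity]
  refine Finset.sum_congr rfl fun m _ => ?_
  rw [lintegral_smul_measure, lintegral_dirac, smul_eq_mul, ← ofReal_norm,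
    ← ENNReal.ofReal_pow (norm_nonneg _), ← ENNReal.ofReal_mul (by positivity)]

lemma geo_sum (n : ℕ) : ∑ j ∈ Finset.range n, (9 / 16 : ℝ) ^ (j + 1) ≤ 2 := by
  have h : ∀ n, ∑ j ∈ Finset.range n, (9 / 16 : ℝ) ^ (j + 1) ≤ 2 - 2 * (9 / 16) ^ n := fun n => by
    induction n with
    | zero => simp
    | succ n ih =>
      rw [Finset.sum_range_succ, pow_succ]
      have : (0 : ℝ) < (9 / 16) ^ n := by positivity
      linarith
  have : (0 : ℝ) < (9 / 16) ^ n := by positivity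
  linarith [h n]

lemma pow_q (j : ℕ) : (3 : ℝ) ^ j * (3 ^ j * ((4 ^ j)⁻¹) ^ 2) = (9 / 16) ^ j := by
  rw [← mul_assoc, ← mul_pow, ← inv_pow, ← pow_mul, mul_comm j 2, pow_mul, ← mul_pow]
  norm_num

lemma nu_finite (h : ∀ j, l (j + 1) ^ s ≤ (4 ^ (j + 1))⁻¹) (h0 : ∀ j, 0 < l j) :
    IsFiniteMeasure (nu p s w l) := by
  refine ⟨lt_of_le_of_lt (b := ENNReal.ofReal 2) ?_ ENNReal.ofReal_lt_top⟩
  rw [nu, Measure.sum_apply _ MeasurableSet.univ]
  refine ENNReal.tsum_le_of_sum_range_le fun n => ?_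
  refine le_trans (Finset.sum_le_sum fun j _ => ?_) ((ENNReal.ofReal_sum_of_nonneg
    fun _ _ => by positivity).symm.trans_le (ENNReal.ofReal_le_ofReal (geo_sum n)))
  simp only [Measure.finsetSum_apply, Measure.smul_apply, measure_univ, smul_eq_mul, mul_one,
    Finset.sum_const, Finset.card_range, nsmul_eq_mul]
  rw [← ENNReal.ofReal_natCast, ← ENNReal.ofReal_mul (by positivity), ← pow_q]
  refine ENNReal.ofReal_le_ofReal ?_
  have := h j
  have := Real.rpow_pos_of_pos (h0 (j + 1)) s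
  push_cast
  gcongr

/-- the mass of `g` on a block -/
def F (g : ℝ → ℝ) (j m : ℕ) : ℝ := ∫ t in S j m, g t ∂P

/-- the energy of the averages of level `j` -/
def En (g : ℝ → ℝ) (j : ℕ) : ℝ := 3 ^ j * ∑ m ∈ Finset.range (3 ^ j), F g j m ^ 2

variable {g : ℝ → ℝ} (g1 : Integrable g P) (g2 : Integrable (fun t => g t ^ 2) P)
include g1

lemma F_split (j m : ℕ) : F g j m =
    F g (j + 1) (3 * m) + F g (j + 1) (3 * m + 1) + F g (j + 1) (3 * m + 2) := by
  have := (int_split j m (fun _ => g) fun _ => g1).2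
  rwa [integral_indicator (S_meas _ _)] at this

lemma En_diff (j : ℕ) : ∑ m ∈ Finset.range (3 ^ j), 3 ^ j * (3 * (F g (j + 1) (3 * m) ^ 2 +
    F g (j + 1) (3 * m + 1) ^ 2 + F g (j + 1) (3 * m + 2) ^ 2) - (F g (j + 1) (3 * m) +
    F g (j + 1) (3 * m + 1) + F g (j + 1) (3 * m + 2)) ^ 2) = En g (j + 1) - En g j := by
  rw [En, En, pow_succ' (3 : ℕ) j, sum_three, Finset.mul_sum, Finset.mul_sum, ← Finset.sum_sub_distrib]
  refine Finset.sum_congr rfl fun m _ => ?_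
  rw [F_split g1 j m]
  ring

include g2

lemma En_le (j : ℕ) : En g j ≤ ∫ t, g t ^ 2 ∂P := by
  refine le_trans ?_ (sum_S_le g2 (fun t => sq_nonneg _) j (3 ^ j))
  rw [En, Finset.mul_sum]
  refine Finset.sum_le_sum fun m hm => le_trans ?_ (cs_S g1 g2 (Finset.mem_range.1 hm))
  rw [← sq_abs (F g j m)]
  gcongr
  exact abs_integral_le_integral_abs

omit g2 in
/-- the value at one atom -/
lemma atom_le (T : Tr w l) (hs : 0 < s) {ε : ℝ} (hε : 0 < ε) {j m : ℕ} (hm : m < 3 ^ (j + 1))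
    (H1 : ∀ i < 3, ∀ z : Eu d, ‖z‖ ≤ 2 * (l (j + 2) / l (j + 1)) →
      ‖K s (w i + z) - w i‖ ≤ (4 ^ (j + 1))⁻¹)
    (H2 : l (j + 1) ^ s ≤ (4 ^ (j + 1))⁻¹ * (l j / 2) ^ s) :
    l (j + 1) ^ s * ‖∫ t, g t • Kt s ε (c p w l (j + 1) m - X p w l t) ∂P‖ ≤
      ‖F g (j + 2) (3 * m) • w 0 + F g (j + 2) (3 * m + 1) • w 1 + F g (j + 2) (3 * m + 2) • w 2‖
      + (4 ^ (j + 1))⁻¹ * ∫ t, |g t| ∂P
      + (if l (j + 1) / 2 ≤ ε ∧ ε < 2 * l (j + 1) then 2 ^ s else 0) *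
        ∫ t in S (j + 1) m, |g t| ∂P := by
  set L := l (j + 1) ^ s with hL
  have l0 := T.pos (j + 1)
  have L0 : 0 < L := Real.rpow_pos_of_pos l0 s
  obtain ⟨i1, i2⟩ := int_split (j + 1) m (fun i t => g t • w i) fun i => g1.smul_const _
  simp only [integral_smul_const] at i2
  have i3 : Integrable (fun t => g t • Kt s ε (c p w l (j + 1) m - X p w l t)) P :=
    g1.smul_of_top_left (memLp_top_of_bound ((Kt_meas s ε).comp
      (measurable_const.sub (T.X_meas p))).aestronglyMeasurable _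
      (.of_forall fun t => Kt_bdd hs hε _))
  obtain ⟨σ, hσ⟩ : ∃ σ : ℝ, σ = if ε < l (j + 1) / 2 then 1 else 0 := ⟨_, rfl⟩
  obtain ⟨π, hπ⟩ : ∃ π : ℝ, π = if l (j + 1) / 2 ≤ ε ∧ ε < 2 * l (j + 1) then 2 ^ s else 0 :=
    ⟨_, rfl⟩
  have i4 := (g1.abs.indicator (S_meas (j + 1) m)).const_mul π
  have key := norm_integral_le_of_norm_le (μ := P)
    (f := fun t => L • (g t • Kt s ε (c p w l (j + 1) m - X p w l t)) +
      σ • (S (j + 1) m).indicator (fun t => g t • w (N (j + 2) t % 3)) t)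
    ((g1.abs.const_mul (4 ^ (j + 1))⁻¹).add i4) (ae_N0.mono fun t ht => by
      have a0 : (0 : ℝ) ≤ (4 ^ (j + 1))⁻¹ * |g t| := by positivity
      by_cases h : t ∈ S (j + 1) m
      · obtain ⟨z, z1, z2⟩ := T.own p h
        obtain ⟨n1, n2⟩ := T.own_norm p h
        simp only [Pi.add_apply, indicator_of_mem h]
        by_cases c1 : ε < l (j + 1) / 2
        · rw [hσ, hπ, if_pos c1, if_neg fun h => absurd h.1 (not_le.2 c1), Kt,
            if_pos (c1.trans_le n1), z2, K_scale l0, one_smul, smul_comm, smul_neg,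
            smul_inv_smul₀ L0.ne', ← smul_add, norm_smul, zero_mul, add_zero, mul_comm,
            neg_add_eq_sub, norm_sub_rev]
          exact mul_le_mul_of_nonneg_right (H1 _ (by omega) z z1) (abs_nonneg _)
        · rw [hσ, if_neg c1, zero_smul, add_zero]
          by_cases c2 : ε < 2 * l (j + 1)
          · have := Kt_norm_le hs ε (by positivity) n1
            rw [Real.div_rpow l0.le (by norm_num), inv_div, le_div_iff₀' L0] at this
            rw [hπ, if_pos ⟨not_lt.1 c1, c2⟩, smul_comm, norm_smul, norm_smul,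
              Real.norm_eq_abs, Real.norm_eq_abs, abs_of_pos L0, mul_comm]
            linarith [mul_le_mul_of_nonneg_right this (abs_nonneg (g t))]
          · rw [hπ, if_neg fun h => c2 h.2, Kt, if_neg (by linarith)]
            simp
      · have := Kt_norm_le hs ε (half_pos (T.pos j)) (T.out p ht j m hm h)
        have b0 := Real.rpow_pos_of_pos (half_pos (T.pos j)) s
        simp only [Pi.add_apply, indicator_of_notMem h, smul_zero, mul_zero, add_zero]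
        rw [smul_comm, norm_smul, norm_smul, Real.norm_eq_abs, Real.norm_eq_abs, abs_of_pos L0,
          mul_comm]
        refine mul_le_mul_of_nonneg_right ?_ (abs_nonneg _)
        refine (mul_le_mul H2 this (norm_nonneg _) (by positivity)).trans (le_of_eq ?_)
        field_simp)
  rw [integral_add (i3.fun_smul L) (i1.fun_smul σ), integral_smul, integral_smul, i2,
    integral_add' (g1.abs.const_mul _) i4, integral_const_mul, integral_const_mul,
    integral_indicator (S_meas _ _)] at key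
  have h1 := norm_sub_norm_le (L • ∫ t, g t • Kt s ε (c p w l (j + 1) m - X p w l t) ∂P)
    (-(σ • (F g (j + 2) (3 * m) • w 0 + F g (j + 2) (3 * m + 1) • w 1 +
      F g (j + 2) (3 * m + 2) • w 2)))
  rw [sub_neg_eq_add, norm_neg, norm_smul, norm_smul, Real.norm_eq_abs, abs_of_pos L0] at h1
  have h2 : ‖σ‖ ≤ 1 := by rw [hσ]; split_ifs <;> simp
  have h3 := mul_le_of_le_one_left (norm_nonneg (F g (j + 2) (3 * m) • w 0 +
    F g (j + 2) (3 * m + 1) • w 1 + F g (j + 2) (3 * m + 2) • w 2)) h2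
  rw [← hπ]
  have key' := h1.trans key
  linarith

lemma level_le (T : Tr w l) (hs : 0 < s) {ε : ℝ} (hε : 0 < ε) (j : ℕ)
    (H1 : ∀ i < 3, ∀ z : Eu d, ‖z‖ ≤ 2 * (l (j + 2) / l (j + 1)) →
      ‖K s (w i + z) - w i‖ ≤ (4 ^ (j + 1))⁻¹)
    (H2 : l (j + 1) ^ s ≤ (4 ^ (j + 1))⁻¹ * (l j / 2) ^ s) :
    ∑ m ∈ Finset.range (3 ^ (j + 1)), 3 ^ (j + 1) * (l (j + 1) ^ s) ^ 2 *
      ‖∫ t, g t • Kt s ε (c p w l (j + 1) m - X p w l t) ∂P‖ ^ 2 ≤
      3 * ((En g (j + 2) - En g (j + 1)) + (9 / 16) ^ (j + 1) * ∫ t, g t ^ 2 ∂P +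
        (if l (j + 1) / 2 ≤ ε ∧ ε < 2 * l (j + 1) then (2 ^ s) ^ 2 else 0) * ∫ t, g t ^ 2 ∂P) := by
  have c0 := cs g1 g2 (c := 1) (by simp) one_pos
  have c1 := sum_S_le g2 (fun t => sq_nonneg _) (j + 1) (3 ^ (j + 1))
  obtain ⟨π, hπ⟩ : ∃ π : ℝ, π = if l (j + 1) / 2 ≤ ε ∧ ε < 2 * l (j + 1) then 2 ^ s else 0 :=
    ⟨_, rfl⟩
  have e : (if l (j + 1) / 2 ≤ ε ∧ ε < 2 * l (j + 1) then (2 ^ s) ^ 2 else 0) = π ^ 2 := by
    rw [hπ]; split_ifs <;> simp
  have e2 : (9 / 16) ^ (j + 1) * ∫ t, g t ^ 2 ∂P = ∑ _m ∈ Finset.range (3 ^ (j + 1)),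
      3 ^ (j + 1) * ((4 ^ (j + 1))⁻¹) ^ 2 * ∫ t, g t ^ 2 ∂P := by
    rw [Finset.sum_const, Finset.card_range, nsmul_eq_mul, ← pow_q]
    push_cast
    ring
  refine le_trans ?_ (mul_le_mul_of_nonneg_left (add_le_add_right
    (mul_le_mul_of_nonneg_left c1 (by positivity)) _) (by norm_num))
  rw [e, e2, ← En_diff g1, Finset.mul_sum, ← Finset.sum_add_distrib, ← Finset.sum_add_distrib,
    Finset.mul_sum]
  refine Finset.sum_le_sum fun m hm => ?_
  have h1 := atom_le p g1 T hs hε (Finset.mem_range.1 hm) H1 H2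
  rw [← hπ] at h1
  have h2 := pow_le_pow_left₀ (mul_nonneg (Real.rpow_pos_of_pos (T.pos _) s).le (norm_nonneg _))
    h1 2
  have h3 := T.quad (F g (j + 2) (3 * m)) (F g (j + 2) (3 * m + 1)) (F g (j + 2) (3 * m + 2))
  have h4 := mul_le_mul_of_nonneg_left (cs_S g1 g2 (Finset.mem_range.1 hm)) (sq_nonneg π)
  have h5 := mul_le_mul_of_nonneg_left c0 (sq_nonneg ((4 : ℝ) ^ (j + 1))⁻¹)
  have h6 : ∀ a b e : ℝ, (a + b + e) ^ 2 ≤ 3 * (a ^ 2 + b ^ 2 + e ^ 2) := fun a b e => by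
    nlinarith [sq_nonneg (a - b), sq_nonneg (a - e), sq_nonneg (b - e)]
  have h7 := mul_le_mul_of_nonneg_left (h2.trans (h6 _ _ _))
    (show (0 : ℝ) ≤ 3 ^ (j + 1) by positivity)
  have h8 := mul_le_mul_of_nonneg_left (add_le_add h3 h5)
    (show (0 : ℝ) ≤ 3 ^ (j + 1) by positivity)
  linarith

omit g1 g2 in
lemma one_level (T : Tr w l) (ε a : ℝ) (ha : 0 ≤ a) (n : ℕ) : ∑ j ∈ Finset.range n,
    (if l (j + 1) / 2 ≤ ε ∧ ε < 2 * l (j + 1) then a else 0) ≤ a := by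
  have h : ∀ n, ∑ j ∈ Finset.range n,
      (if l (j + 1) / 2 ≤ ε ∧ ε < 2 * l (j + 1) then a else 0) ≤
        if l n / 2 ≤ ε then a else 0 := fun n => by
    induction n with
    | zero => simp only [Finset.range_zero, Finset.sum_empty]; split_ifs <;> linarith
    | succ n ih =>
      have := T.dec n
      have := T.pos (n + 1)
      rw [Finset.sum_range_succ]
      split_ifs at ih ⊢ with h1 h2 h3 <;> linarith
  refine (h n).trans ?_
  split_ifs <;> linarith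

omit g1 g2 in
theorem upper (T : Tr w l) (hs : 0 < s)
    (H1 : ∀ j, ∀ i < 3, ∀ z : Eu d, ‖z‖ ≤ 2 * (l (j + 1) / l j) →
      ‖K s (w i + z) - w i‖ ≤ (4 ^ j)⁻¹)
    (H2 : ∀ j, l (j + 1) ^ s ≤ (4 ^ (j + 1))⁻¹ * (l j / 2) ^ s) :
    Bdd s (P.map (X p w l)) (nu p s w l) := by
  have hX := T.X_meas p
  refine ⟨(3 * (3 + (2 ^ s) ^ 2) : ℝ).toNNReal, fun ε hε f hf => ?_⟩
  have g0 : MemLp (fun t => f (X p w l t)) 2 P := hf.comp_of_map hX.aemeasurable
  have g1 := g0.integrable one_le_two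
  have g2 := g0.integrable_sq
  have e : ∫⁻ y, ‖f y‖ₑ ^ 2 ∂P.map (X p w l) = ENNReal.ofReal (∫ t, f (X p w l t) ^ 2 ∂P) := by
    rw [lintegral_map' (hf.1.enorm.pow_const 2) hX.aemeasurable,
      ofReal_integral_eq_lintegral_ofReal g2 (.of_forall fun t => sq_nonneg _)]
    refine lintegral_congr fun t => ?_
    rw [← ofReal_norm, ← ENNReal.ofReal_pow (norm_nonneg _), Real.norm_eq_abs, sq_abs]
  rw [lint_nu, e, ← ENNReal.ofReal_coe_nnreal, ← ENNReal.ofReal_mul (NNReal.coe_nonneg _)]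
  refine ENNReal.tsum_le_of_sum_range_le fun n => ?_
  rw [← ENNReal.ofReal_sum_of_nonneg fun _ _ => by positivity]
  refine ENNReal.ofReal_le_ofReal ?_
  simp only [riesz_map hX ε hf.1]
  refine (Finset.sum_le_sum fun j _ => level_le p g1 g2 T hs hε j (H1 (j + 1)) (H2 j)).trans ?_
  have I0 : 0 ≤ ∫ t, f (X p w l t) ^ 2 ∂P := integral_nonneg fun t => sq_nonneg _
  rw [← Finset.mul_sum, Finset.sum_add_distrib, Finset.sum_add_distrib, ← Finset.sum_mul,
    ← Finset.sum_mul, Finset.sum_range_sub fun j => En (fun t => f (X p w l t)) (j + 1)]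
  have h1 := En_le g1 g2 (n + 1)
  have h2 : 0 ≤ En (fun t => f (X p w l t)) (0 + 1) := by unfold En; positivity
  have h3 := mul_le_mul_of_nonneg_right (geo_sum n) I0
  have h4 := mul_le_mul_of_nonneg_right (one_level T ε ((2 ^ s) ^ 2) (by positivity) n) I0
  rw [Real.coe_toNNReal _ (by positivity)]
  linarith

end Pool.Agent.Lib.MP_5e5259_an
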